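import Mathlib
import Pool.Agent.N119.PS.Stm

set_option autoImplicit false

/-!
Project PSC (helper119), leaf BND, by helper841: the intersection form and mean displacements.
-/

namespace Pool.Agent.N841.PSC.BND

open Pool.Agent.N119.PS
open Pool.Agent.H472R3 Pool.Agent.H67R3.FSR Pool.Agent.H67R4.SR MeasureTheory Topology Filter
open scoped ENNReal NNReal

variable {N : ℕ}

theorem cyl_one : Cyl (1 : FreeGroup (Fin N)) = U 1 := by
  ext q
  unfold Cyl
  rw [Set.mem_ofPred_eq, FreeGroup.norm_one]
  exact ⟨fun h => h.1, fun h => ⟨h, rfl⟩⟩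

section

variable (A : FTree N) (x : A.T)

theorem an_add (h3 : S_CYL) (μ ν : Current N) (n : ℕ) :
    an A x (μ + ν) n = an A x μ n + an A x ν n := by
  unfold an
  rw [← Finset.sum_add_distrib]
  refine Finset.sum_congr rfl fun g _ => ?_
  have hc := ((h3 N).1 g).2
  rw [Current.add_meas, measureReal_add_apply (μ.finite _ hc).ne (ν.finite _ hc).ne]
  ring

theorem an_smul (c : ℝ≥0) (μ : Current N) (n : ℕ) : an A x (c • μ) n = c * an A x μ n := by
  unfold an
  rw [Finset.mul_sum]
  refine Finset.sum_congr rfl fun g _ => ?_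
  rw [Current.smul_meas, measureReal_nnreal_smul_apply]
  ring

theorem an_zero (n : ℕ) : an A x (0 : Current N) n = 0 := by
  unfold an
  refine Finset.sum_eq_zero fun g _ => ?_
  rw [Current.zero_meas]
  simp [Measure.real]

/-- the mean displacement of a counting current -/
theorem an_eta (h4 : S_PER) (h5 : S_ETA) (p : PerWord N) (hp : p.g ≠ 1) (n : ℕ) :
    an A x (eta p.g hp) n = 2 * ∑ i ∈ Finset.range p.m, (lenFn A x).L (p.el i n) := by
  classical
  have hnorm : ∀ i, (p.el i n).norm = n := fun i => (h4 N p).2.2.1 i n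
  unfold an
  have e1 : ∀ g ∈ sph N n, (eta p.g hp).meas.real (Cyl g) * (lenFn A x).L g =
      ∑ i ∈ Finset.range p.m, ((if p.el i n = g then (lenFn A x).L g else 0) +
        (if (p.el i n)⁻¹ = g then (lenFn A x).L g else 0)) := by
    intro g hg
    have hgn : g.norm = n := mem_sph.1 hg
    unfold Measure.real
    rw [h5 N p hp g, ENNReal.toReal_natCast, hgn]
    push_cast
    rw [Finset.sum_add_distrib, ← Finset.sum_filter, ← Finset.sum_filter, Finset.sum_const,
      Finset.sum_const, nsmul_eq_mul, nsmul_eq_mul, add_mul]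
    have e2 : (Finset.range p.m).filter (fun i => p.el i n = g⁻¹) =
        (Finset.range p.m).filter (fun i => (p.el i n)⁻¹ = g) := by
      refine Finset.filter_congr fun i _ => ?_
      constructor
      · intro h
        rw [h, inv_inv]
      · intro h
        rw [← h, inv_inv]
    rw [e2]
  rw [Finset.sum_congr rfl e1, Finset.sum_comm, Finset.mul_sum]
  refine Finset.sum_congr rfl fun i _ => ?_
  rw [Finset.sum_add_distrib, Finset.sum_ite_eq, Finset.sum_ite_eq,
    if_pos (mem_sph.2 (hnorm i)), if_pos (mem_sph.2 (by rw [FreeGroup.norm_inv_eq]; exact hnorm i)),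
    (lenFn A x).inv]
  ring

theorem u_eta (h5 : S_ETA) (p : PerWord N) (hp : p.g ≠ 1) :
    (eta p.g hp).meas.real (U 1) = 2 * p.m := by
  rw [← cyl_one]
  unfold Measure.real
  rw [h5 N p hp 1, ENNReal.toReal_natCast, FreeGroup.norm_one]
  have h1 : ∀ i, p.el i 0 = 1 := fun i => rfl
  simp only [h1, inv_one, Finset.filter_true, Finset.card_range]
  push_cast
  ring

end

theorem t (h1 : S_DEC) (h2 : S_APX) (h3 : S_CYL) (h4 : S_PER) (h5 : S_ETA) (h6 : S_LEN) :
    S_BND := by
  intro N hN I hI A hA x μ n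
  have hU : ∀ ν : Current N, ν.meas (U 1) ≠ ∞ := by
    intro ν
    rw [← cyl_one]
    exact (ν.finite _ ((h3 N).1 1).2).ne
  -- combinations of counting currents
  have hpart : ∀ (a : ℕ → ℝ≥0) (p : ℕ → PerWord N) (hp : ∀ i, (p i).g ≠ 1) (k : ℕ),
      2 * n * I A (part a (fun i => eta (p i).g (hp i)) k) ≤
        an A x (part a (fun i => eta (p i).g (hp i)) k) n ∧
      ∀ C : ℝ, IsBCC A x C → an A x (part a (fun i => eta (p i).g (hp i)) k) n ≤
        2 * n * I A (part a (fun i => eta (p i).g (hp i)) k) +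
          2 * C * (part a (fun i => eta (p i).g (hp i)) k).meas.real (U 1) := by
    intro a p hp k
    induction k with
    | zero =>
      have h0 : I A 0 = 0 := by
        have := hI.smul A hA 0 0
        have e0 : (0 : ℝ≥0) • (0 : Current N) = 0 := by
          apply Current.ext
          rw [Current.smul_meas, Current.zero_meas, smul_zero]
        rw [e0, NNReal.coe_zero, zero_mul] at this
        exact this
      rw [part, h0, an_zero, Current.zero_meas]
      simp [Measure.real]
    | succ k ih =>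
      rw [part, hI.add A hA, hI.smul A hA, hI.counting A hA, an_add A x h3, an_smul,
        an_eta A x h4 h5, Current.add_meas, Current.smul_meas,
        measureReal_add_apply (hU _) (by
          have := hU (a k • eta (p k).g (hp k))
          rwa [Current.smul_meas] at this), measureReal_nnreal_smul_apply, u_eta h5]
      have ha : (0 : ℝ) ≤ a k := (a k).2
      obtain ⟨h7, h8⟩ := h6 N A hA x (p k) n
      refine ⟨?_, fun C hC => ?_⟩
      · have h9 := mul_le_mul_of_nonneg_left h7 ha
        nlinarith [ih.1]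
      · have h9 := mul_le_mul_of_nonneg_left (h8 C hC) ha
        have h10 := ih.2 C hC
        nlinarith [h9, h10]
  -- approximation
  have hex : ∀ j : ℕ, ∃ ν : Current N, (2 ≤ j → ∀ e : FreeGroup (Fin N), e.norm = j →
      ν.meas (Cyl e) = μ.meas (Cyl e)) ∧ (2 * n * I A ν ≤ an A x ν n ∧
      ∀ C : ℝ, IsBCC A x C → an A x ν n ≤ 2 * n * I A ν + 2 * C * ν.meas.real (U 1)) := by
    intro j
    by_cases hj : 2 ≤ j
    · obtain ⟨k, a, p, hp, h⟩ := h1 N j hN hj μ
      exact ⟨part a (fun i => eta (p i).g (hp i)) k, fun _ => h, hpart a p hp k⟩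
    · obtain ⟨k, a, p, hp, h⟩ := h1 N 2 hN le_rfl μ
      exact ⟨part a (fun i => eta (p i).g (hp i)) k, fun h => absurd h hj, hpart a p hp k⟩
  choose ν hν1 hν2 using hex
  have hlim : Tendsto ν atTop (𝓝 μ) := h2 N μ ν hν1
  have hI' : Tendsto (fun j => I A (ν j)) atTop (𝓝 (I A μ)) :=
    ((hI.continuous A hA).tendsto μ).comp hlim
  have hc : ∀ g : FreeGroup (Fin N),
      Tendsto (fun j => (ν j).meas.real (Cyl g)) atTop (𝓝 (μ.meas.real (Cyl g))) := fun g =>
    (((h3 N).2.1 g).tendsto μ).comp hlim
  have han : Tendsto (fun j => an A x (ν j) n) atTop (𝓝 (an A x μ n)) := by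
    unfold an
    exact tendsto_finsetSum _ fun g _ => (hc g).mul_const _
  have hu : Tendsto (fun j => (ν j).meas.real (U 1)) atTop (𝓝 (μ.meas.real (U 1))) := by
    rw [← cyl_one]
    exact hc 1
  refine ⟨le_of_tendsto_of_tendsto' (hI'.const_mul _) han fun j => (hν2 j).1, fun C hC => ?_⟩
  exact le_of_tendsto_of_tendsto' han ((hI'.const_mul _).add (hu.const_mul _))
    fun j => (hν2 j).2 C hC

end Pool.Agent.N841.PSC.BND
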